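import Mathlib
import Pool.Agent.U380.GH.Gauss
import Pool.Agent.U380.GH.Det
import Pool.Agent.U380.GH.Cap

/-!
# The hole probability of the Gaussian entire function is not determined by the capacity

Let `f(z) = ∑ ξ_n z ^ n / √n!` be the Gaussian entire function, and let `K_δ` be the closed rectangle
`|Re z| ≤ 1`, `|Im z| ≤ δ`, where `0 < δ ≤ 1 / 16`. It is convex, its capacity is at least
`2 exp (-3/2)` (it is at least the capacity `1/2` of the segment), but

`P(f has no zeros in r K_δ) ≥ exp (-17 δ² r⁴)` for all `r ≥ 300 / δ²`.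

So `r⁻⁴ p_{H,K}(f; r)` does not tend to `(e² / 4) c(K)⁴ ≥ 4 e⁻⁴ = 0.0732...`: for `δ ≤ 1 / 16` the upper limit is
at most `17 / 256 = 0.0664...`, and it tends to zero for `δ → 0`, while the capacities stay bounded below.
The answer to Q1 is negative, already for convex sets.

Proof. Let `c_n` be the coefficients of `exp (z² / 2) = ∑ c_n z ^ n / √n!`; one has `|c_n| ≤ 1`. On the
rectangle `r K_δ` the function `|exp (z² / 2)| = exp ((x² - y²) / 2)` is at least
`exp (|z|² / 2) exp (- δ² r²)`. If `|ξ_n - c_n| ≤ ε = exp (- δ² r²) / (4 N)` for all `n < N`, where `N` is about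
`8 r²`, and `|ξ_n| ≤ n + 1` for `n ≥ N`, then `|f(z) - exp (z² / 2)| < |exp (z² / 2)|` on the rectangle, because
`|z| ^ n / √n! ≤ exp (|z|² / 2)`. The probability of this event is at least
`(ε² e⁻⁴) ^ N / 2 = exp (- (16 δ² + o(1)) r⁴)`.
-/

set_option autoImplicit false

open MeasureTheory ProbabilityTheory Filter Topology

namespace Pool.Agent.Results.MP_629fb1_pr.ThinRectangles

/-- The standard complex Gaussian distribution: the density is `(1/π) exp (-|w|²)`. -/
noncomputable def stdGaussian : Measure ℂ :=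
  (volume : Measure ℂ).withDensity fun w => ENNReal.ofReal (Real.exp (-‖w‖ ^ 2) / Real.pi)

/-- `ξ_0, ξ_1, ...` are independent standard complex Gaussian random variables. -/
structure IsGaussianSequence {Ω : Type*} [MeasurableSpace Ω] (μ : Measure Ω) (ξ : ℕ → Ω → ℂ) :
    Prop where
  measurable : ∀ n, Measurable (ξ n)
  indep : iIndepFun ξ μ
  law : ∀ n, μ.map (ξ n) = stdGaussian

/-- The Gaussian entire function `f(z) = ∑ ξ_n z ^ n / √n!`. -/
noncomputable def gef {Ω : Type*} (ξ : ℕ → Ω → ℂ) (ω : Ω) (z : ℂ) : ℂ :=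
  ∑' n : ℕ, ξ n ω * (z ^ n / (√(n.factorial : ℝ) : ℝ))

/-- The event that the Gaussian entire function has no zero in `r K`. -/
def hole {Ω : Type*} (ξ : ℕ → Ω → ℂ) (K : Set ℂ) (r : ℝ) : Set Ω :=
  {ω | ∀ z ∈ K, gef ξ ω (r * z) ≠ 0}

/-- The hole probability exponent `p_{H,K}(f; r) = - log P(f(z) ≠ 0 for all z ∈ r K)`. -/
noncomputable def holeExponent {Ω : Type*} [MeasurableSpace Ω] (μ : Measure Ω) (ξ : ℕ → Ω → ℂ)
    (K : Set ℂ) (r : ℝ) : ℝ :=
  -Real.log (μ.real (hole ξ K r))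

/-- The `n`-th diameter of `K`: the supremum of the geometric means of the mutual distances of `n` points of
`K` (the product is over the `n (n - 1)` ordered pairs of different points). -/
noncomputable def nthDiameter (K : Set ℂ) (n : ℕ) : ℝ :=
  sSup {d | ∃ s : Finset ℂ, ↑s ⊆ K ∧ s.card = n ∧
    d = (∏ p ∈ s.offDiag, ‖p.1 - p.2‖) ^ (1 / ((n : ℝ) * (n - 1)))}

/-- `c` is the transfinite diameter (logarithmic capacity) of `K`: the limit of the `n`-th diameters. -/
def IsCapacity (K : Set ℂ) (c : ℝ) : Prop := Tendsto (nthDiameter K) atTop (𝓝 c)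

/-- The closed rectangle `|Re z| ≤ 1`, `|Im z| ≤ δ`. -/
def rectangle (δ : ℝ) : Set ℂ := {z | |z.re| ≤ 1 ∧ |z.im| ≤ δ}

lemma rectangle_eq (δ : ℝ) :
    rectangle δ = (Set.Icc (-1 : ℝ) 1) ×ℂ (Set.Icc (-δ) δ) := by
  ext z
  simp only [rectangle, Set.mem_ofPred_eq, Complex.mem_reProdIm, Set.mem_Icc, abs_le]

lemma compact_rectangle (δ : ℝ) : IsCompact (rectangle δ) := by
  rw [rectangle_eq]
  exact IsCompact.reProdIm isCompact_Icc isCompact_Icc

lemma convex_rectangle (δ : ℝ) : Convex ℝ (rectangle δ) := by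
  have h1 : Convex ℝ (Complex.reLm ⁻¹' Set.Icc (-1 : ℝ) 1) :=
    (convex_Icc (-1 : ℝ) 1).linear_preimage Complex.reLm
  have h2 : Convex ℝ (Complex.imLm ⁻¹' Set.Icc (-δ) δ) :=
    (convex_Icc (-δ) δ).linear_preimage Complex.imLm
  convert h1.inter h2 using 1
  ext z
  simp [rectangle, abs_le]

lemma interior_rectangle {δ : ℝ} (hδ : 0 < δ) : (interior (rectangle δ)).Nonempty := by
  refine ⟨0, ?_⟩
  rw [mem_interior]
  refine ⟨{z | |z.re| < 1 ∧ |z.im| < δ}, fun z hz => ⟨hz.1.le, hz.2.le⟩, ?_, ?_⟩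
  · apply IsOpen.inter
    · exact isOpen_lt (continuous_abs.comp Complex.continuous_re) continuous_const
    · exact isOpen_lt (continuous_abs.comp Complex.continuous_im) continuous_const
  · simp [hδ]

lemma connected_rectangle {δ : ℝ} (hδ : 0 < δ) : IsConnected (rectangle δ) :=
  (convex_rectangle δ).isConnected ((interior_rectangle hδ).mono interior_subset)

lemma bounded_rectangle {δ : ℝ} (hδ1 : δ ≤ 1 / 16) : ∀ z ∈ rectangle δ, ‖z‖ ≤ 2 := by
  intro z hz
  have h := Complex.norm_le_abs_re_add_abs_im z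
  have h1 := hz.1
  have h2 := hz.2
  linarith

lemma segment_rectangle {δ : ℝ} (hδ : 0 < δ) (x : ℝ) (hx : |x| ≤ 1) : (x : ℂ) ∈ rectangle δ := by
  refine ⟨by simpa using hx, ?_⟩
  simp [hδ.le]

lemma infinite_rectangle {δ : ℝ} (hδ : 0 < δ) : (rectangle δ).Infinite := by
  have h1 : (Set.Icc (-1 : ℝ) 1).Infinite := Set.Icc_infinite (by norm_num)
  refine (h1.image (f := fun x : ℝ => (x : ℂ)) (Complex.ofReal_injective.injOn)).mono ?_
  rintro _ ⟨x, hx, rfl⟩
  exact segment_rectangle hδ x (abs_le.2 hx)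

lemma nthDiameter_eq (K : Set ℂ) (n : ℕ) : nthDiameter K n = Pool.Agent.U380.GH.dia K n := by
  unfold nthDiameter Pool.Agent.U380.GH.dia Pool.Agent.U380.GH.geo Pool.Agent.U380.GH.dp
  congr 1
  ext d
  constructor
  · rintro ⟨s, h1, h2, h3⟩
    exact ⟨s, h1, h2, by rw [h3, h2]⟩
  · rintro ⟨s, h1, h2, h3⟩
    exact ⟨s, h1, h2, by rw [h3, h2]⟩

/-- the capacity exists and is at least `2 exp (-3/2)` -/
lemma capacity_rectangle {δ : ℝ} (hδ : 0 < δ) (hδ1 : δ ≤ 1 / 16) :
    ∃ c, IsCapacity (rectangle δ) c ∧ 2 * Real.exp (-(3 / 2)) ≤ c := by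
  have he : nthDiameter (rectangle δ) = Pool.Agent.U380.GH.dia (rectangle δ) := by
    funext n
    exact nthDiameter_eq _ n
  obtain ⟨c, hc⟩ := Pool.Agent.U380.GH.exists_lim (R := 2) (by norm_num) (bounded_rectangle hδ1)
    (infinite_rectangle hδ)
  refine ⟨c, by unfold IsCapacity; rw [he]; exact hc, ?_⟩
  refine ge_of_tendsto hc ?_
  filter_upwards [eventually_ge_atTop 2] with n hn
  exact Pool.Agent.U380.GH.lower (R := 2) (by norm_num) (bounded_rectangle hδ1)
    (segment_rectangle hδ) n hn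

/-- Such sequences exist. -/
theorem exists_gaussianSequence : ∃ (Ω : Type) (_ : MeasurableSpace Ω) (μ : Measure Ω)
    (ξ : ℕ → Ω → ℂ), IsProbabilityMeasure μ ∧ IsGaussianSequence μ ξ := by
  have : IsProbabilityMeasure stdGaussian :=
    inferInstanceAs (IsProbabilityMeasure Pool.Agent.U380.GH.gauss)
  refine ⟨ℕ → ℂ, inferInstance, Measure.infinitePi fun _ => stdGaussian, fun n ω => ω n,
    inferInstance, fun n => measurable_pi_apply n, ?_, fun n => ?_⟩
  · exact iIndepFun_infinitePi (P := fun _ : ℕ => stdGaussian) (X := fun _ ω => ω) (by fun_prop)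
  · exact Measure.infinitePi_map_eval (fun _ : ℕ => stdGaussian) n

lemma toGH {Ω : Type*} [MeasurableSpace Ω] {μ : Measure Ω} {ξ : ℕ → Ω → ℂ}
    (h : IsGaussianSequence μ ξ) : Pool.Agent.U380.GH.IsGaussianSequence μ ξ :=
  ⟨h.measurable, h.indep, h.law⟩

/-- **Lower bound for the hole probability of a thin rectangle.** -/
theorem hole_lower {Ω : Type*} [MeasurableSpace Ω] {μ : Measure Ω} [IsProbabilityMeasure μ]
    {ξ : ℕ → Ω → ℂ} (h : IsGaussianSequence μ ξ) {δ : ℝ} (hδ : 0 < δ) (hδ1 : δ ≤ 1 / 16) {r : ℝ}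
    (hr : 300 / δ ^ 2 ≤ r) :
    Real.exp (-(17 * δ ^ 2 * r ^ 4)) ≤ μ.real (hole ξ (rectangle δ) r) := by
  have hδ2 : δ ^ 2 ≤ 1 / 256 := by nlinarith
  have hδ3 : 0 < δ ^ 2 := by positivity
  have hrδ : 300 ≤ r * δ ^ 2 := (div_le_iff₀ hδ3).1 hr
  have hr0 : 0 < r := by
    by_contra h0
    nlinarith [not_lt.1 h0]
  have hr1 : 300 ≤ r := by nlinarith
  set N : ℕ := ⌈8 * r ^ 2⌉₊ with hN
  have hN1 : 8 * r ^ 2 ≤ N := Nat.le_ceil _
  have hN2 : (N : ℝ) ≤ 8 * r ^ 2 + 1 := (Nat.ceil_lt_add_one (by positivity)).le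
  have hN0 : (1 : ℝ) ≤ N := by nlinarith
  have hNpos : 1 ≤ N := by exact_mod_cast hN0
  set ε : ℝ := Real.exp (-(δ ^ 2 * r ^ 2)) / (4 * N) with hε
  have hε0 : 0 < ε := by positivity
  have hε1 : ε ≤ 1 := by
    rw [hε, div_le_one (by positivity)]
    have : Real.exp (-(δ ^ 2 * r ^ 2)) ≤ 1 := Real.exp_le_one_iff.2 (by nlinarith [sq_nonneg r])
    linarith
  set q : ℝ := ε ^ 2 * Real.exp (-4) with hq
  have hball : ∀ n < N, q ≤ Pool.Agent.U380.GH.gauss.real {w | ‖w - Pool.Agent.U380.GH.cf n‖ ≤ ε} := by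
    intro n _
    refine le_trans ?_ (Pool.Agent.U380.GH.gauss_ball _ hε0.le)
    rw [hq]
    apply mul_le_mul_of_nonneg_left _ (by positivity)
    apply Real.exp_le_exp.2
    have h1 := Pool.Agent.U380.GH.norm_cf_le n
    have h2 : ‖Pool.Agent.U380.GH.cf n‖ + ε ≤ 2 := by linarith
    have h3 : 0 ≤ ‖Pool.Agent.U380.GH.cf n‖ + ε := by positivity
    nlinarith
  have hprob := Pool.Agent.U380.GH.prob_event (toGH h) N hNpos
    (fun n => {w | ‖w - Pool.Agent.U380.GH.cf n‖ ≤ ε})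
    (fun n => measurableSet_le (by fun_prop) measurable_const) q (by positivity) hball
  have hsub : {ω | (∀ n < N, ξ n ω ∈ (fun n => {w | ‖w - Pool.Agent.U380.GH.cf n‖ ≤ ε}) n) ∧
      ∀ n, N ≤ n → ‖ξ n ω‖ ≤ n + 1} ⊆ hole ξ (rectangle δ) r := by
    rintro ω ⟨h1, h2⟩ z hz
    have hre : ((r : ℂ) * z).re = r * z.re := by simp
    have him : ((r : ℂ) * z).im = r * z.im := by simp
    refine Pool.Agent.U380.GH.no_zero (f := fun n => ξ n ω) (w := (r : ℂ) * z) (δ := δ) (r := r)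
      (N := N) hδ hδ1 (by linarith) hN1 h1 h2 ?_ ?_
    · rw [hre, abs_mul, abs_of_pos hr0]
      nlinarith [hz.1]
    · rw [him, abs_mul, abs_of_pos hr0, mul_comm]
      exact mul_le_mul_of_nonneg_right hz.2 hr0.le
  refine le_trans ?_ (hprob.trans (measureReal_mono hsub))
  -- the computation
  have hlog : Real.log (4 * N) ≤ 12 * r := by
    have h1 : (4 * N : ℝ) ≤ (6 * r) ^ 2 := by nlinarith
    calc Real.log (4 * N) ≤ Real.log ((6 * r) ^ 2) := Real.log_le_log (by positivity) h1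
      _ = 2 * Real.log (6 * r) := by
          rw [Real.log_pow]
          norm_num
      _ ≤ 12 * r := by
          have := Real.log_le_sub_one_of_pos (x := 6 * r) (by positivity)
          linarith
  have hεe : ε = Real.exp (-(δ ^ 2 * r ^ 2) - Real.log (4 * N)) := by
    rw [Real.exp_sub, Real.exp_log (by positivity)]
  have hqe : q = Real.exp (-(2 * δ ^ 2 * r ^ 2 + 2 * Real.log (4 * N) + 4)) := by
    rw [hq, hεe, ← Real.exp_nat_mul, ← Real.exp_add]
    congr 1
    push_cast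
    ring
  have h2e : (2 : ℝ) ≤ Real.exp 1 := by
    have := Real.add_one_le_exp (1 : ℝ)
    linarith
  have hfin : Real.exp (-(N * (2 * δ ^ 2 * r ^ 2 + 2 * Real.log (4 * N) + 4)) - 1) ≤ q ^ N / 2 := by
    rw [hqe, ← Real.exp_nat_mul, Real.exp_sub, mul_neg]
    exact div_le_div_of_nonneg_left (Real.exp_pos _).le (by norm_num) h2e
  refine le_trans (Real.exp_le_exp.2 ?_) hfin
  have h3 : 2 * δ ^ 2 * r ^ 2 + 2 * Real.log (4 * N) + 4 ≤ 2 * δ ^ 2 * r ^ 2 + 24 * r + 4 := by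
    linarith
  have h4 : (N : ℝ) * (2 * δ ^ 2 * r ^ 2 + 2 * Real.log (4 * N) + 4) ≤
      (8 * r ^ 2 + 1) * (2 * δ ^ 2 * r ^ 2 + 24 * r + 4) := by
    apply mul_le_mul hN2 h3 _ (by positivity)
    have : 0 ≤ Real.log (4 * N) := Real.log_nonneg (by linarith)
    positivity
  have h5 : (8 * r ^ 2 + 1) * (2 * δ ^ 2 * r ^ 2 + 24 * r + 4) + 1 ≤ 17 * δ ^ 2 * r ^ 4 := by
    have e1 : 300 * r ^ 3 ≤ δ ^ 2 * r ^ 4 := by
      have : 0 < r ^ 3 := by positivity
      nlinarith
    have e2 : r ^ 2 ≤ r ^ 3 / 300 := by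
      rw [le_div_iff₀ (by norm_num)]
      nlinarith [sq_nonneg r]
    have e3 : r ≤ r ^ 3 / 300 := by nlinarith
    have e4 : 1 ≤ r ^ 3 / 300 := by nlinarith
    have e5 : δ ^ 2 * r ^ 2 ≤ r ^ 2 / 256 := by nlinarith [sq_nonneg r]
    nlinarith
  linarith

/-- **The conjectured asymptotics of the hole probability fails for all thin rectangles.** For
`0 < δ ≤ 1 / 16` the rectangle `K = {|Re z| ≤ 1, |Im z| ≤ δ}` is a compact convex (hence connected) set with
nonempty interior. It has a capacity `c ≥ 2 exp (-3/2)`. For the Gaussian entire function, defined by any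
sequence of independent standard complex Gaussian random variables, the probability of a hole in `r K` is at
least `exp (-17 δ² r⁴)` for all `r ≥ 300 / δ²`, and `r⁻⁴ p_{H,K}(f; r)` does not converge to `(e² / 4) c⁴`. -/
theorem result (δ : ℝ) (hδ : 0 < δ) (hδ1 : δ ≤ 1 / 16) :
    IsCompact (rectangle δ) ∧ Convex ℝ (rectangle δ) ∧ IsConnected (rectangle δ) ∧
    (interior (rectangle δ)).Nonempty ∧
    ∃ c : ℝ, IsCapacity (rectangle δ) c ∧ 2 * Real.exp (-(3 / 2)) ≤ c ∧
      ∀ (Ω : Type*) [MeasurableSpace Ω] (μ : Measure Ω) [IsProbabilityMeasure μ] (ξ : ℕ → Ω → ℂ),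
        IsGaussianSequence μ ξ →
        (∀ r : ℝ, 300 / δ ^ 2 ≤ r →
          Real.exp (-(17 * δ ^ 2 * r ^ 4)) ≤ μ.real (hole ξ (rectangle δ) r)) ∧
        ¬ Tendsto (fun r : ℝ => holeExponent μ ξ (rectangle δ) r / r ^ 4) atTop
          (𝓝 (Real.exp 2 / 4 * c ^ 4)) := by
  refine ⟨compact_rectangle δ, convex_rectangle δ, connected_rectangle hδ, interior_rectangle hδ, ?_⟩
  obtain ⟨c, hc, hc2⟩ := capacity_rectangle hδ hδ1
  refine ⟨c, hc, hc2, fun Ω _ μ _ ξ hξ => ⟨fun r hr => hole_lower hξ hδ hδ1 hr, fun hlim => ?_⟩⟩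
  have h1 : Real.exp 2 / 4 * c ^ 4 ≤ 17 * δ ^ 2 := by
    refine le_of_tendsto hlim ?_
    filter_upwards [eventually_ge_atTop (300 / δ ^ 2), eventually_gt_atTop 0] with r hr hr0
    rw [div_le_iff₀ (by positivity)]
    unfold holeExponent
    have h2 := hole_lower hξ hδ hδ1 hr
    have h3 := Real.log_le_log (Real.exp_pos _) h2
    rw [Real.log_exp] at h3
    linarith
  have hδ2 : δ ^ 2 ≤ 1 / 256 := by nlinarith
  have h4 : (2 * Real.exp (-(3 / 2))) ^ 4 ≤ c ^ 4 := pow_le_pow_left₀ (by positivity) hc2 4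
  have h5 : (2 * Real.exp (-(3 / 2))) ^ 4 = 16 * Real.exp (-6) := by
    rw [mul_pow, ← Real.exp_nat_mul]
    norm_num
  have h6 : Real.exp 2 / 4 * (16 * Real.exp (-6)) ≤ 17 / 256 := by
    calc Real.exp 2 / 4 * (16 * Real.exp (-6)) ≤ Real.exp 2 / 4 * c ^ 4 := by
          rw [← h5]
          exact mul_le_mul_of_nonneg_left h4 (by positivity)
      _ ≤ 17 * δ ^ 2 := h1
      _ ≤ 17 / 256 := by linarith
  have h7 : Real.exp 2 / 4 * (16 * Real.exp (-6)) = 4 * Real.exp (-4) := by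
    have : Real.exp (-4) = Real.exp 2 * Real.exp (-6) := by
      rw [← Real.exp_add]
      norm_num
    rw [this]
    ring
  rw [h7, Real.exp_neg] at h6
  have h8 : Real.exp 4 < 60 := by
    have h9 := Real.exp_one_lt_d9
    have h10 : Real.exp 4 = Real.exp 1 ^ 4 := by
      rw [← Real.exp_nat_mul]
      norm_num
    rw [h10]
    calc Real.exp 1 ^ 4 < 2.7182818286 ^ 4 := by
          apply pow_lt_pow_left₀ h9 (Real.exp_pos _).le (by norm_num)
      _ < 60 := by norm_num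
  have h11 : (1 : ℝ) / 60 < (Real.exp 4)⁻¹ := by
    rw [one_div]
    exact inv_strictAnti₀ (Real.exp_pos _) h8
  linarith

end Pool.Agent.Results.MP_629fb1_pr.ThinRectangles
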